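import Pool.Agent.H31R3.UI.Conn

set_option autoImplicit false

/-! The dichotomy for unit interval graphs with unary predicates. -/

namespace Pool.Agent.H31R3.UI

open Set MeasureTheory
open Pool.Agent.H533R2.VO (RS RIso VC Dich)
open Pool.Agent.H533R2.VS (p2 IsSum US UIso VCu UDich act)
open Pool.Agent.H899R2.VP (gaifman HasCliqueSubdivision)
open Pool.Agent.H31R3.SO (Semi Le le_tot le_refl' le_tr s_mono YY relY pol_YY semi_main p2_comp
  p2_eta)
open Pool.Agent.H31R3.AL (m_bool c0 c1 c0_p2 c1_p2 c0_comp c1_comp no_sub)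

/-- arities -/
def b5 : ℕ → ℕ
  | 0 => 2
  | 1 => 2
  | (_ + 2) => 1

/-- no relations between blocks -/
def k5 : ℕ → Bool := fun _ => false

/-- no relations -/
def W1 (z : RS b5) : Prop := z = fun _ _ => false

/-- forget the equivalence relation -/
def de5 (z : RS b5) : YY := (fun m n => z 1 (p2 m n), fun i m => z (i + 2) (p2 m m))

/-- the blocks -/
def W2 (z : RS b5) : Prop := (z 0 = fun _ => false) ∧ UC (de5 z)

theorem b50 : 0 < b5 0 ∧ 1 < b5 0 := ⟨Nat.two_pos, Nat.one_lt_two⟩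
theorem b51 : 0 < b5 1 ∧ 1 < b5 1 := ⟨Nat.two_pos, Nat.one_lt_two⟩
theorem b52 (i : ℕ) : 0 < b5 (i + 2) := Nat.one_pos

theorem b5pos : ∀ i, 0 < b5 i
  | 0 => Nat.two_pos
  | 1 => Nat.two_pos
  | (_ + 2) => Nat.one_pos

theorem p2_eta5 {i : ℕ} (v : Fin (b5 (i + 2)) → ℕ) :
    (p2 (c0 v) (c0 v) : Fin (b5 (i + 2)) → ℕ) = v := by
  funext j
  have hj : j.1 < 1 := j.2
  have hj0 : j = ⟨0, Nat.one_pos⟩ := Fin.ext (by show j.1 = 0; omega)
  have h1 : c0 v = v ⟨0, Nat.one_pos⟩ := by
    unfold c0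
    rw [dif_pos (show 0 < b5 (i + 2) from Nat.one_pos)]
  unfold p2
  rw [h1, hj0]
  simp

theorem vcu_W1 : VCu W1 := by
  intro B hB hi hV
  refine Pool.Agent.H533R2.VS.vs_sparse b5 B hB hi fun x hx => no_sub _ fun m => ?_
  have h1 : x.1 = fun _ _ => false := hV x hx
  have h2 : {y | (gaifman x.1).Adj m y} ⊆ ∅ := by
    rintro y ⟨-, i, t, h3, -, -⟩
    rw [h1] at h3
    exact Bool.noConfusion h3
  exact Set.finite_empty.subset h2

theorem pol5 : PolishSpace (RS b5) := Pool.Agent.H533R2.VS.kis_pRS b5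

theorem de5_act (σ : Equiv.Perm ℕ) (z : RS b5) : de5 (act σ z) = relY σ (de5 z) := by
  refine Prod.ext ?_ ?_
  · funext m n
    show z 1 (⇑σ.symm ∘ p2 m n) = z 1 (p2 (σ.symm m) (σ.symm n))
    rw [p2_comp]
  · funext i m
    show z (i + 2) (⇑σ.symm ∘ p2 m m) = z (i + 2) (p2 (σ.symm m) (σ.symm m))
    rw [p2_comp]

theorem de5_cont : Continuous de5 := by
  refine Continuous.prodMk ?_ ?_
  · exact continuous_pi fun m => continuous_pi fun n =>
      (continuous_apply _).comp (continuous_apply _)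
  · exact continuous_pi fun i => continuous_pi fun m =>
      (continuous_apply _).comp (continuous_apply _)

theorem dch_W2 : Dch act W2 := by
  have hP := pol_YY
  have hP5 := pol5
  have hne : Nonempty (RS b5) := ⟨fun _ _ => false⟩
  have hbo : BorelSpace (RS b5) := inferInstance
  refine dch_transfer act relY W2 UC de5 de5_cont.measurable ?_ de5_act relY_symm
    (fun z hz => hz.2) dch_uc
  intro z z' hz hz' h
  funext i v
  match i, v with
  | 0, v => rw [hz.1, hz'.1]
  | 1, v =>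
    have h1 : (de5 z).1 (c0 v) (c1 v) = (de5 z').1 (c0 v) (c1 v) := by rw [h]
    have h2 : z 1 (p2 (c0 v) (c1 v)) = z' 1 (p2 (c0 v) (c1 v)) := h1
    have e : (p2 (c0 v) (c1 v) : Fin (b5 1) → ℕ) = v := p2_eta v
    rwa [e] at h2
  | (i + 2), v =>
    have h1 : (de5 z).2 i (c0 v) = (de5 z').2 i (c0 v) := by rw [h]
    have h2 : z (i + 2) (p2 (c0 v) (c0 v)) = z' (i + 2) (p2 (c0 v) (c0 v)) := h1
    rwa [p2_eta5] at h2

theorem vc_sum : VC (IsSum 0 k5 W1 W2) :=
  Pool.Agent.H533R2.VS.vs_plain_sum b5 b5pos 0 rfl k5 W1 W2 vcu_W1 (vc_of_dch _ dch_W2)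

/-! ### Disjoint unions -/

/-- unit interval graphs -/
def UIG (x : YY) : Prop := ∃ s, Ind x.1 s

open Classical in
/-- the code -/
noncomputable def c5 (x : YY) : RS b5
  | 0 => fun v => decide (Cn x.1 (c0 v) (c1 v))
  | 1 => fun v => x.1 (c0 v) (c1 v)
  | (i + 2) => fun v => x.2 i (c0 v)

open Classical in
theorem c5_zero (x : YY) (v : Fin (b5 0) → ℕ) : c5 x 0 v = true ↔ Cn x.1 (c0 v) (c1 v) := by
  show decide (Cn x.1 (c0 v) (c1 v)) = true ↔ _
  exact decide_eq_true_iff

theorem c5_zero' (x : YY) (m n : ℕ) : c5 x 0 (p2 m n) = true ↔ Cn x.1 m n := by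
  rw [c5_zero, c0_p2 b50.1, c1_p2 b50.2]

theorem c5_one' (x : YY) (m n : ℕ) : c5 x 1 (p2 m n) = x.1 m n := by
  show x.1 (c0 (p2 m n : Fin (b5 1) → ℕ)) (c1 (p2 m n : Fin (b5 1) → ℕ)) = _
  rw [c0_p2 b51.1, c1_p2 b51.2]

theorem c5_two' (x : YY) (i m n : ℕ) : c5 x (i + 2) (p2 m n) = x.2 i m := by
  show x.2 i (c0 (p2 m n : Fin (b5 (i + 2)) → ℕ)) = _
  rw [c0_p2 (b52 i)]

theorem cn_map (σ : Equiv.Perm ℕ) (g : ℕ → ℕ → Bool) {x y : ℕ} (h : Cn g x y) :
    Cn (rg σ g) (σ x) (σ y) := by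
  unfold Cn at h ⊢
  induction h with
  | refl => exact Relation.ReflTransGen.refl
  | @tail u v h1 h2 ih =>
    refine Relation.ReflTransGen.tail ih ?_
    show g (σ.symm (σ u)) (σ.symm (σ v)) = true
    rw [σ.symm_apply_apply, σ.symm_apply_apply]
    exact h2

theorem cn_map' (σ : Equiv.Perm ℕ) (g : ℕ → ℕ → Bool) (x y : ℕ) :
    Cn (rg σ g) x y ↔ Cn g (σ.symm x) (σ.symm y) := by
  constructor
  · intro h
    have h1 := cn_map σ.symm (rg σ g) h
    rwa [rg_rg] at h1
  · intro h
    have h1 := cn_map σ g h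
    rwa [σ.apply_symm_apply, σ.apply_symm_apply] at h1

theorem c5_act (σ : Equiv.Perm ℕ) (x : YY) : c5 (relY σ x) = act σ (c5 x) := by
  funext i v
  match i, v with
  | 0, v =>
    refine Bool.eq_iff_iff.2 ((c5_zero _ _).trans (Iff.trans ?_ (c5_zero _ _).symm))
    rw [c0_comp b50.1, c1_comp b50.2]
    exact cn_map' σ x.1 _ _
  | 1, v =>
    show x.1 (σ.symm (c0 v)) (σ.symm (c1 v)) = x.1 (c0 (⇑σ.symm ∘ v)) (c1 (⇑σ.symm ∘ v))
    rw [c0_comp b51.1, c1_comp b51.2]
  | (i + 2), v =>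
    show x.2 i (σ.symm (c0 v)) = x.2 i (c0 (⇑σ.symm ∘ v))
    rw [c0_comp (b52 i)]

theorem c5_inj (x y : YY) (h : c5 x = c5 y) : x = y := by
  refine Prod.ext ?_ ?_
  · funext m n
    rw [← c5_one' x, ← c5_one' y, h]
  · funext i m
    rw [← c5_two' x i m m, ← c5_two' y i m m, h]

/-- walks in the graph -/
def WC (g : ℕ → ℕ → Bool) : ℕ → ℕ → ℕ → Prop
  | 0, p, q => p = q
  | k + 1, p, q => ∃ z, WC g k p z ∧ g z q = true

theorem cn_wc (g : ℕ → ℕ → Bool) (x y : ℕ) : Cn g x y ↔ ∃ k, WC g k x y := by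
  constructor
  · intro h
    unfold Cn at h
    induction h with
    | refl => exact ⟨0, rfl⟩
    | @tail b c h1 h2 ih =>
      obtain ⟨k, hk⟩ := ih
      exact ⟨k + 1, b, hk, h2⟩
  · rintro ⟨k, hk⟩
    have key : ∀ k q, WC g k x q → Relation.ReflTransGen (fun u v => g u v = true) x q := by
      intro k
      induction k with
      | zero =>
        intro q h
        rw [show x = q from h]
      | succ k ih =>
        rintro q ⟨z, h1, h2⟩
        exact Relation.ReflTransGen.tail (ih z h1) h2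
    exact key k _ hk

theorem m_cn {Ω : Type} [MeasurableSpace Ω] (f : Ω → ℕ → ℕ → Bool) (hf : Measurable f)
    (x y : ℕ) : Measurable fun ω => Cn (f ω) x y := by
  have h1 : ∀ k q, Measurable fun ω => WC (f ω) k x q := by
    intro k
    induction k with
    | zero => exact fun q => measurable_const
    | succ k ih => exact fun q => Measurable.exists fun z => (ih z).and (m_val f hf z q true)
  simp only [cn_wc]
  exact Measurable.exists fun k => h1 k y

theorem c5_meas : Measurable c5 := by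
  refine measurable_pi_iff.2 fun i => measurable_pi_iff.2 fun v => ?_
  match i, v with
  | 0, v => exact m_bool _ _ (fun x => c5_zero x v) (m_cn _ measurable_fst _ _)
  | 1, v =>
    exact (measurable_pi_apply _).comp ((measurable_pi_apply _).comp measurable_fst)
  | (i + 2), v =>
    exact (measurable_pi_apply _).comp ((measurable_pi_apply _).comp measurable_snd)

theorem cn_refl (g : ℕ → ℕ → Bool) (x : ℕ) : Cn g x x := Relation.ReflTransGen.refl

theorem c5_cases (v : Fin (b5 1) → ℕ) (j : Fin (b5 1)) : v j = c0 v ∨ v j = c1 v :=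
  Pool.Agent.H31R3.AL.c_cases v j

theorem c5_sum (x : YY) (hx : UIG x) : IsSum 0 k5 W1 W2 (c5 x) := by
  obtain ⟨s, hs⟩ := hx
  have hu : ∀ i (t : Fin (b5 (i + 2)) → ℕ) j l, t j = t l := by
    intro i t j l
    have : j = l := by
      have hj : j.1 < 1 := j.2
      have hl : l.1 < 1 := l.2
      exact Fin.ext (by omega)
    rw [this]
  refine ⟨?_, ?_, ?_, ?_, ?_, ?_, ?_⟩
  · intro u
    rw [c5_zero']
    exact cn_refl _ _
  · intro u v
    rw [c5_zero', c5_zero']
    exact cn_symm hs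
  · intro u v w
    rw [c5_zero', c5_zero', c5_zero']
    exact fun h1 h2 => Relation.ReflTransGen.trans h1 h2
  · intro i hi _ t ht j l
    match i, t, j, l with
    | 0, t, j, l => exact absurd rfl hi
    | 1, t, j, l =>
      rw [c5_zero']
      have h1 : x.1 (c0 t) (c1 t) = true := ht
      rcases c5_cases t j with hj | hj <;> rcases c5_cases t l with hl | hl <;> rw [hj, hl]
      · exact cn_refl _ _
      · exact Relation.ReflTransGen.single h1
      · exact Relation.ReflTransGen.single (g_symm hs h1)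
      · exact cn_refl _ _
    | (i + 2), t, j, l =>
      rw [c5_zero', hu i t j l]
      exact cn_refl _ _
  · intro i _ hk
    exact absurd hk (by show ¬ (false = true); decide)
  · intro u e he hC
    have hC' : ∀ z, Cn x.1 u z ↔ ∃ n, e n = z := by
      intro z
      rw [← c5_zero', hC]
    have e1 : ∀ m n, (de5 (fun (i : ℕ) (v : Fin (b5 i) → ℕ) =>
        if i ≠ 0 ∧ k5 i = false then c5 x i (e ∘ v) else false)).1 m n = x.1 (e m) (e n) := by
      intro m n
      show (if 1 ≠ 0 ∧ k5 1 = false then c5 x 1 (e ∘ p2 m n) else false) = _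
      rw [if_pos ⟨one_ne_zero, rfl⟩, ← p2_comp, c5_one']
    refine ⟨?_, ⟨fun m n => s (e m) (e n), ⟨?_, ?_, ?_⟩, ?_⟩, ?_⟩
    · funext v
      show (if 0 ≠ 0 ∧ k5 0 = false then c5 x 0 (e ∘ v) else false) = false
      simp
    · exact fun m => hs.semi.irr _
    · exact fun m n k l => hs.semi.io _ _ _ _
    · exact fun m n k l => hs.semi.st _ _ _ _
    · intro m n
      rw [e1, hs.inc]
      refine and_congr he.ne_iff Iff.rfl
    · intro m n
      have hx1 : Cn x.1 (e m) (e n) :=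
        Relation.ReflTransGen.trans (cn_symm hs ((hC' (e m)).2 ⟨m, rfl⟩)) ((hC' (e n)).2 ⟨n, rfl⟩)
      have key : ∀ z, Cn x.1 (e m) z → ∃ k, e k = z ∧ Cn (de5 (fun (i : ℕ) (v : Fin (b5 i) → ℕ) =>
          if i ≠ 0 ∧ k5 i = false then c5 x i (e ∘ v) else false)).1 m k := by
        intro z hz
        unfold Cn at hz
        induction hz with
        | refl => exact ⟨m, rfl, cn_refl _ _⟩
        | @tail b c h1 h2 ih =>
          obtain ⟨k, hk, hk2⟩ := ih
          obtain ⟨k', hk'⟩ := (hC' c).1 (Relation.ReflTransGen.trans ((hC' (e m)).2 ⟨m, rfl⟩)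
            (Relation.ReflTransGen.tail h1 h2))
          refine ⟨k', hk', Relation.ReflTransGen.tail hk2 ?_⟩
          show (de5 _).1 k k' = true
          rw [e1, hk, hk']
          exact h2
      obtain ⟨k, hk, hk2⟩ := key (e n) hx1
      rw [he hk] at hk2
      exact hk2
  · intro e _ _
    funext i v
    show (if i ≠ 0 ∧ k5 i = true then c5 x i (e ∘ v) else false) = false
    rw [if_neg]
    rintro ⟨-, h⟩
    exact absurd h (by show ¬ (false = true); decide)

/-- The dichotomy for unit interval graphs with unary predicates. -/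
theorem dch_uig : Dch relY UIG := by
  have hP := pol_YY
  have hP5 := pol5
  have hne : Nonempty YY := ⟨(fun _ _ => false, fun _ _ => false)⟩
  have hbo : BorelSpace (RS b5) := inferInstance
  exact dch_transfer relY act UIG (IsSum 0 k5 W1 W2) c5 c5_meas (fun x y _ _ h => c5_inj x y h)
    c5_act act_symm c5_sum (dch_of_vc _ vc_sum)

end Pool.Agent.H31R3.UI
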