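import Pool.Agent.H31R3.UI.Orient

set_option autoImplicit false

/-! The dichotomy for connected unit interval graphs with unary predicates. -/

namespace Pool.Agent.H31R3.UI

open Set MeasureTheory
open Pool.Agent.H31R3.SO (Semi Le le_tot le_refl' le_tr s_mono YY relY pol_YY semi_main)
open Pool.Agent.H31R3.AL (m_bool)

/-- complete graphs -/
def CompG (x : YY) : Prop := ∀ m n, x.1 m n = true ↔ m ≠ n

/-- connected unit interval graphs which are not complete -/
structure ConG (x : YY) : Prop where
  ind : ∃ s, Ind x.1 s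
  con : ∀ m n, Cn x.1 m n
  non : ∃ a b, Ne x.1 a b

theorem dch_semi : Dch relY (fun x : YY => Semi x.1) := fun B hB hV hi => semi_main B hB hV hi

theorem bor_YY : BorelSpace YY := inferInstance

theorem dch_comp : Dch relY CompG := by
  have hP := pol_YY
  have hne : Nonempty YY := ⟨(fun _ _ => false, fun _ _ => false)⟩
  refine dch_transfer relY relY CompG (fun x : YY => Semi x.1)
    (fun x => ((fun _ _ => false, x.2) : YY)) ?_ ?_ ?_ relY_symm ?_ dch_semi
  · exact measurable_const.prodMk measurable_snd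
  · intro x y hx hy h
    refine Prod.ext ?_ (Prod.mk.inj h).2
    funext m n
    rw [Bool.eq_iff_iff, hx, hy]
  · intro σ x
    rfl
  · intro x _
    exact ⟨fun _ => rfl, fun _ _ _ _ h => Bool.noConfusion h, fun _ _ _ _ h => Bool.noConfusion h⟩

/-- the code with two named elements -/
noncomputable def cP (a b : ℕ) (x : YY) : YY := (Or' x.1 a b, fun i m =>
  match i with
  | 0 => decide (m = a)
  | 1 => decide (m = b)
  | (i + 2) => x.2 i m)

/-- the way back -/
def dP (y : YY) : YY :=
  (fun m n => decide (m ≠ n) && (!(y.1 m n) && !(y.1 n m)), fun i m => y.2 (i + 2) m)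

theorem dP_fst (y : YY) (m n : ℕ) :
    (dP y).1 m n = true ↔ m ≠ n ∧ y.1 m n = false ∧ y.1 n m = false := by
  unfold dP
  simp [Bool.and_eq_true]

theorem dP_cP {x : YY} (hx : ConG x) {a b : ℕ} (hab : Ne x.1 a b) : dP (cP a b x) = x := by
  have h := or_ind hx.ind hx.con hab
  refine Prod.ext ?_ rfl
  funext m n
  rw [Bool.eq_iff_iff, dP_fst, h.inc]
  exact Iff.rfl

theorem dP_rel (σ : Equiv.Perm ℕ) (y : YY) : dP (relY σ y) = relY σ (dP y) := by
  refine Prod.ext ?_ rfl
  funext m n
  rw [Bool.eq_iff_iff, dP_fst]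
  show _ ↔ (dP y).1 (σ.symm m) (σ.symm n) = true
  rw [dP_fst]
  refine and_congr ?_ Iff.rfl
  exact σ.symm.injective.ne_iff.symm

/-- relabelled graph -/
def rg (σ : Equiv.Perm ℕ) (g : ℕ → ℕ → Bool) : ℕ → ℕ → Bool := fun m n => g (σ.symm m) (σ.symm n)

theorem ne_map (σ : Equiv.Perm ℕ) (g : ℕ → ℕ → Bool) (x y : ℕ) :
    Ne (rg σ g) (σ x) (σ y) ↔ Ne g x y := by
  unfold Ne rg
  simp

theorem fo_map (σ : Equiv.Perm ℕ) (g : ℕ → ℕ → Bool) {a b x y : ℕ} (h : Fo g a b x y) :
    Fo (rg σ g) (σ a) (σ b) (σ x) (σ y) := by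
  have key : ∀ p q : ℕ × ℕ, Relation.ReflTransGen (Step g) p q →
      Relation.ReflTransGen (Step (rg σ g)) (σ p.1, σ p.2) (σ q.1, σ q.2) := by
    intro p q hpq
    induction hpq with
    | refl => exact Relation.ReflTransGen.refl
    | @tail u v h1 h2 ih =>
      refine Relation.ReflTransGen.tail ih ?_
      obtain ⟨h3, h4, h5⟩ := h2
      refine ⟨(ne_map σ g _ _).2 h3, (ne_map σ g _ _).2 h4, ?_⟩
      rcases h5 with ⟨h6, h7⟩ | ⟨h6, h7⟩
      · left
        refine ⟨congrArg σ h6, ?_⟩
        show g (σ.symm (σ _)) (σ.symm (σ _)) = true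
        rw [σ.symm_apply_apply, σ.symm_apply_apply]
        exact h7
      · right
        refine ⟨congrArg σ h6, ?_⟩
        show g (σ.symm (σ _)) (σ.symm (σ _)) = true
        rw [σ.symm_apply_apply, σ.symm_apply_apply]
        exact h7
  exact key _ _ h

theorem rg_rg (σ : Equiv.Perm ℕ) (g : ℕ → ℕ → Bool) : rg σ.symm (rg σ g) = g := by
  funext m n
  unfold rg
  simp

open Classical in
theorem or_map (σ : Equiv.Perm ℕ) (g : ℕ → ℕ → Bool) (a b m n : ℕ) :
    Or' (rg σ g) (σ a) (σ b) m n = Or' g a b (σ.symm m) (σ.symm n) := by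
  unfold Or'
  apply decide_eq_decide.2
  constructor
  · intro h
    have h1 := fo_map σ.symm (rg σ g) h
    rw [rg_rg, σ.symm_apply_apply, σ.symm_apply_apply] at h1
    exact h1
  · intro h
    have h1 := fo_map σ g h
    rwa [σ.apply_symm_apply, σ.apply_symm_apply] at h1

theorem cP_rel (σ : Equiv.Perm ℕ) (a b : ℕ) (x : YY) :
    cP (σ a) (σ b) (relY σ x) = relY σ (cP a b x) := by
  refine Prod.ext ?_ ?_
  · funext m n
    exact or_map σ x.1 a b m n
  · funext i m
    match i with
    | 0 =>
      show decide (m = σ a) = decide (σ.symm m = a)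
      exact decide_eq_decide.2 (Equiv.symm_apply_eq σ).symm
    | 1 =>
      show decide (m = σ b) = decide (σ.symm m = b)
      exact decide_eq_decide.2 (Equiv.symm_apply_eq σ).symm
    | (i + 2) => rfl

/-! ### Measurability and continuity -/

theorem dP_cont : Continuous dP := by
  have h1 : ∀ m n, Continuous fun y : YY => y.1 m n := fun m n =>
    (continuous_apply n).comp ((continuous_apply m).comp continuous_fst)
  refine Continuous.prodMk ?_ ?_
  · refine continuous_pi fun m => continuous_pi fun n => ?_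
    have h2 : Continuous fun p : Bool × Bool => (decide (m ≠ n) && (!p.1 && !p.2)) :=
      continuous_of_discreteTopology
    exact h2.comp ((h1 m n).prodMk (h1 n m))
  · exact continuous_pi fun i => (continuous_apply (i + 2)).comp continuous_snd

/-- walks of steps -/
def WF (g : ℕ → ℕ → Bool) : ℕ → ℕ × ℕ → ℕ × ℕ → Prop
  | 0, p, q => p = q
  | k + 1, p, q => ∃ z, WF g k p z ∧ Step g z q

theorem fo_wf (g : ℕ → ℕ → Bool) (a b x y : ℕ) : Fo g a b x y ↔ ∃ k, WF g k (a, b) (x, y) := by
  constructor
  · intro h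
    have key : ∀ p q : ℕ × ℕ, Relation.ReflTransGen (Step g) p q → ∃ k, WF g k p q := by
      intro p q hpq
      induction hpq with
      | refl => exact ⟨0, rfl⟩
      | @tail b c h1 h2 ih =>
        obtain ⟨k, hk⟩ := ih
        exact ⟨k + 1, b, hk, h2⟩
    exact key _ _ h
  · rintro ⟨k, hk⟩
    have key : ∀ k (p q : ℕ × ℕ), WF g k p q → Relation.ReflTransGen (Step g) p q := by
      intro k
      induction k with
      | zero =>
        intro p q h
        rw [show p = q from h]
      | succ k ih =>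
        rintro p q ⟨z, h1, h2⟩
        exact Relation.ReflTransGen.tail (ih p z h1) h2
    exact key k _ _ hk

theorem m_val {Ω : Type} [MeasurableSpace Ω] (f : Ω → ℕ → ℕ → Bool) (hf : Measurable f)
    (m n : ℕ) (c : Bool) : Measurable fun ω => f ω m n = c := by
  have h : Measurable fun ω => f ω m n :=
    (measurable_pi_apply n).comp ((measurable_pi_apply m).comp hf)
  exact measurableSet_setOfPred.1 (h (measurableSet_singleton c))

theorem m_step {Ω : Type} [MeasurableSpace Ω] (f : Ω → ℕ → ℕ → Bool) (hf : Measurable f)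
    (p q : ℕ × ℕ) : Measurable fun ω => Step (f ω) p q := by
  unfold Step Ne
  refine Measurable.and (measurable_const.and (m_val f hf _ _ _))
    (Measurable.and (measurable_const.and (m_val f hf _ _ _)) (Measurable.or ?_ ?_))
  · exact measurable_const.and (m_val f hf _ _ _)
  · exact measurable_const.and (m_val f hf _ _ _)

theorem m_wf {Ω : Type} [MeasurableSpace Ω] (f : Ω → ℕ → ℕ → Bool) (hf : Measurable f)
    (k : ℕ) (p q : ℕ × ℕ) : Measurable fun ω => WF (f ω) k p q := by
  induction k generalizing q with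
  | zero => exact measurable_const
  | succ k ih => exact Measurable.exists fun z => (ih z).and (m_step f hf z q)

theorem m_fo {Ω : Type} [MeasurableSpace Ω] (f : Ω → ℕ → ℕ → Bool) (hf : Measurable f)
    (a b x y : ℕ) : Measurable fun ω => Fo (f ω) a b x y := by
  simp only [fo_wf]
  exact Measurable.exists fun k => m_wf f hf k _ _

open Classical in
theorem cP_meas (a b : ℕ) : Measurable (cP a b) := by
  refine Measurable.prodMk ?_ ?_
  · refine measurable_pi_iff.2 fun m => measurable_pi_iff.2 fun n => ?_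
    exact m_bool _ _ (fun x => by
      show decide (Fo x.1 a b m n) = true ↔ Fo x.1 a b m n
      exact decide_eq_true_iff) (m_fo _ measurable_fst a b m n)
  · refine measurable_pi_iff.2 fun i => measurable_pi_iff.2 fun m => ?_
    match i with
    | 0 => exact measurable_const
    | 1 => exact measurable_const
    | (i + 2) =>
      exact (measurable_pi_apply m).comp ((measurable_pi_apply i).comp measurable_snd)

theorem cyl {s : Set (ℕ → Bool)} (hs : IsOpen s) (h0 : (fun _ => false) ∈ s) :
    ∃ N : ℕ, ∀ A : ℕ → Bool, (∀ i < N, A i = false) → A ∈ s := by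
  obtain ⟨I, u, hu, hI⟩ := isOpen_pi_iff.1 hs _ h0
  refine ⟨I.sup id + 1, fun A hA => hI fun i hi => ?_⟩
  have h1 : i ≤ I.sup id := Finset.le_sup (f := id) (Finset.mem_coe.1 hi)
  rw [hA i (by omega)]
  exact (hu i (Finset.mem_coe.1 hi)).2

/-- connected unit interval graphs which are not complete -/
theorem dch_con : Dch relY ConG := by
  classical
  intro B hB hBV hBi
  have hP := pol_YY
  have hdm : Measurable dP := dP_cont.measurable
  have hB'm : MeasurableSet {y : YY | dP y ∈ B ∧ ∃ a b, Ne (dP y).1 a b ∧ cP a b (dP y) = y} := by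
    have e1 : {y : YY | dP y ∈ B ∧ ∃ a b, Ne (dP y).1 a b ∧ cP a b (dP y) = y} =
        (dP ⁻¹' B) ∩ ⋃ a : ℕ, ⋃ b : ℕ, ({y : YY | Ne (dP y).1 a b} ∩
          {y : YY | cP a b (dP y) = y}) := by
      ext y
      simp only [Set.mem_ofPred_eq, mem_inter_iff, mem_preimage, mem_iUnion]
    rw [e1]
    refine (hdm hB).inter (MeasurableSet.iUnion fun a => MeasurableSet.iUnion fun b =>
      MeasurableSet.inter ?_ ?_)
    · have h1 : Measurable fun y : YY => Ne (dP y).1 a b := by
        unfold Ne
        exact measurable_const.and (m_val _ (measurable_fst.comp hdm) _ _ _)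
      exact measurableSet_setOfPred.2 h1
    · exact measurableSet_eq_fun ((cP_meas a b).comp hdm) measurable_id
  have hB'V : ∀ y ∈ {y : YY | dP y ∈ B ∧ ∃ a b, Ne (dP y).1 a b ∧ cP a b (dP y) = y},
      Semi y.1 := by
    rintro y ⟨h1, a, b, h2, h3⟩
    have h4 := (or_ind (hBV _ h1).ind (hBV _ h1).con h2).semi
    rw [← h3]
    exact h4
  have hB'i : ∀ y ∈ {y : YY | dP y ∈ B ∧ ∃ a b, Ne (dP y).1 a b ∧ cP a b (dP y) = y},
      ∀ σ, relY σ y ∈ {y : YY | dP y ∈ B ∧ ∃ a b, Ne (dP y).1 a b ∧ cP a b (dP y) = y} := by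
    rintro y ⟨h1, a, b, h2, h3⟩ σ
    refine ⟨?_, σ a, σ b, ?_, ?_⟩
    · rw [dP_rel]
      exact hBi _ h1 σ
    · rw [dP_rel]
      exact (ne_map σ _ _ _).2 h2
    · rw [dP_rel, cP_rel, h3]
  rcases dch_semi _ hB'm hB'V hB'i with ⟨f, hf⟩ | ⟨g, hg, hgB, hgi⟩
  · left
    refine ⟨fun n => dP (f n), fun x hx => ?_⟩
    obtain ⟨a, b, hab⟩ := (hBV x hx).non
    have h1 := dP_cP (hBV x hx) hab
    obtain ⟨n, σ, h2⟩ := hf (cP a b x) ⟨by rw [h1]; exact hx, a, b, by rw [h1]; exact hab,
      by rw [h1]⟩
    refine ⟨n, σ, ?_⟩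
    rw [← dP_rel, ← h2, h1]
  · right
    choose hg1 pA qA hg2 hg3 using hgB
    have hco0 : ∀ A m, (g A).2 0 m = true → m = pA A := by
      intro A m h
      rw [← hg3 A] at h
      have h1 : decide (m = pA A) = true := h
      exact decide_eq_true_iff.1 h1
    have hco1 : ∀ A m, (g A).2 1 m = true → m = qA A := by
      intro A m h
      rw [← hg3 A] at h
      have h1 : decide (m = qA A) = true := h
      exact decide_eq_true_iff.1 h1
    have hcp0 : ∀ A, (g A).2 0 (pA A) = true := by
      intro A
      rw [← hg3 A]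
      show decide (pA A = pA A) = true
      simp
    have hcq0 : ∀ A, (g A).2 1 (qA A) = true := by
      intro A
      rw [← hg3 A]
      show decide (qA A = qA A) = true
      simp
    obtain ⟨p, hp⟩ : ∃ p, p = pA (fun _ => false) := ⟨_, rfl⟩
    obtain ⟨q, hq⟩ : ∃ q, q = qA (fun _ => false) := ⟨_, rfl⟩
    have hopen : IsOpen ({A : ℕ → Bool | (g A).2 0 p = true} ∩ {A | (g A).2 1 q = true}) := by
      have hc1 : ∀ i m, Continuous fun A => (g A).2 i m := fun i m =>
        (continuous_apply m).comp ((continuous_apply i).comp (continuous_snd.comp hg))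
      exact ((isOpen_discrete {true}).preimage (hc1 0 p)).inter
        ((isOpen_discrete {true}).preimage (hc1 1 q))
    obtain ⟨N, hN⟩ := cyl hopen ⟨by rw [hp]; exact hcp0 _, by rw [hq]; exact hcq0 _⟩
    set e : (ℕ → Bool) → (ℕ → Bool) := fun A i => if i < N then false else A (i - N) with he
    have hec : Continuous e := by
      refine continuous_pi fun i => ?_
      by_cases hi : i < N
      · simp only [he, hi, if_true]
        exact continuous_const
      · simp only [he, hi, if_false]
        exact continuous_apply _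
    have hei : Function.Injective e := by
      intro A A' h
      funext i
      have := congrFun h (i + N)
      simpa [he] using this
    have hmem : ∀ A, (g (e A)).2 0 p = true ∧ (g (e A)).2 1 q = true := fun A =>
      hN (e A) (fun i hi => by simp [he, hi])
    have hpe : ∀ A, cP p q (dP (g (e A))) = g (e A) := by
      intro A
      rw [hco0 _ _ (hmem A).1, hco1 _ _ (hmem A).2]
      exact hg3 (e A)
    refine param B hB (fun A => dP (g (e A))) (dP_cont.comp (hg.comp hec)) (fun A => hg1 _)
      {p, q} (by simp) ?_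
    intro A A' σ hσ hAA
    apply hei
    apply hgi
    refine ⟨σ, ?_⟩
    have h1 : σ p = p := hσ p (by simp)
    have h2 : σ q = q := hσ q (by simp)
    rw [← hpe A', ← hpe A, ← cP_rel, h1, h2]
    exact congrArg (cP p q) hAA

/-- connected unit interval graphs -/
structure UC (x : YY) : Prop where
  ind : ∃ s, Ind x.1 s
  con : ∀ m n, Cn x.1 m n

theorem dch_uc : Dch relY UC := by
  classical
  intro B hB hBV hBi
  have hsp : ∀ x : YY, UC x → CompG x ∨ ConG x := by
    intro x hx
    by_cases h : ∃ a b, Ne x.1 a b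
    · exact Or.inr ⟨hx.ind, hx.con, h⟩
    · left
      push Not at h
      obtain ⟨s, hs⟩ := hx.ind
      intro m n
      constructor
      · intro h1
        exact ((hs.inc m n).1 h1).1
      · intro h1
        by_contra h2
        exact h m n ⟨h1, by simpa using h2⟩
  have hcm : MeasurableSet {x : YY | CompG x} := by
    have h1 : Measurable fun x : YY => CompG x := by
      unfold CompG
      refine Measurable.forall fun m => Measurable.forall fun n => ?_
      by_cases hmn : m = n
      · subst hmn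
        have : (fun x : YY => (x.1 m m = true ↔ m ≠ m)) = fun x : YY => x.1 m m = false := by
          funext x
          simp
        rw [this]
        exact m_val _ measurable_fst _ _ _
      · have : (fun x : YY => (x.1 m n = true ↔ m ≠ n)) = fun x : YY => x.1 m n = true := by
          funext x
          simp [hmn]
        rw [this]
        exact m_val _ measurable_fst _ _ _
    exact measurableSet_setOfPred.2 h1
  have hci : ∀ x : YY, ∀ σ, CompG x ↔ CompG (relY σ x) := by
    intro x σ
    unfold CompG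
    constructor
    · intro h m n
      show x.1 (σ.symm m) (σ.symm n) = true ↔ m ≠ n
      rw [h]
      exact σ.symm.injective.ne_iff
    · intro h m n
      have h1 := h (σ m) (σ n)
      have h2 : x.1 (σ.symm (σ m)) (σ.symm (σ n)) = true ↔ σ m ≠ σ n := h1
      rw [σ.symm_apply_apply, σ.symm_apply_apply] at h2
      rw [h2]
      exact σ.injective.ne_iff
  rcases dch_comp (B ∩ {x | CompG x}) (hB.inter hcm) (fun x hx => hx.2)
    (fun x hx σ => ⟨hBi x hx.1 σ, (hci x σ).1 hx.2⟩) with ⟨f1, hf1⟩ | ⟨g, hg, hgB, hgi⟩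
  swap
  · right
    exact ⟨g, hg, fun A => (hgB A).1, hgi⟩
  rcases dch_con (B ∩ {x | CompG x}ᶜ) (hB.inter hcm.compl)
    (fun x hx => (hsp x (hBV x hx.1)).resolve_left hx.2)
    (fun x hx σ => ⟨hBi x hx.1 σ, fun h => hx.2 ((hci x σ).2 h)⟩) with
    ⟨f2, hf2⟩ | ⟨g, hg, hgB, hgi⟩
  swap
  · right
    exact ⟨g, hg, fun A => (hgB A).1, hgi⟩
  left
  refine ⟨fun n => if n % 2 = 0 then f1 (n / 2) else f2 (n / 2), fun x hx => ?_⟩
  by_cases hc : CompG x
  · obtain ⟨n, σ, h⟩ := hf1 x ⟨hx, hc⟩
    refine ⟨2 * n, σ, ?_⟩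
    have e1 : 2 * n % 2 = 0 := by omega
    have e2 : 2 * n / 2 = n := by omega
    simp only [e1, if_true, e2]
    exact h
  · obtain ⟨n, σ, h⟩ := hf2 x ⟨hx, hc⟩
    refine ⟨2 * n + 1, σ, ?_⟩
    have e1 : ¬ (2 * n + 1) % 2 = 0 := by omega
    have e2 : (2 * n + 1) / 2 = n := by omega
    simp only [e1, if_false, e2]
    exact h

end Pool.Agent.H31R3.UI
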