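import Pool.Agent.H31R3.SO.Semi
import Pool.Agent.H899R2.VP.Few

set_option autoImplicit false

/-! The dichotomy for actions of the symmetric group; transfer and parameters. -/

namespace Pool.Agent.H31R3.UI

open Set MeasureTheory
open Pool.Agent.H533R2.VO (RS RIso VC Dich lift)
open Pool.Agent.H533R2.VS (p2 IsSum US UIso VCu UDich act)
open Pool.Agent.H899R2.VP (St IsoOn idOn few_base)
open Pool.Agent.H31R3.AL (c0 c1 c0_p2 c1_p2 c0_comp c1_comp cont_of_borel)
open Pool.Agent.H31R3.SO (YY relY p2_comp pol_YY)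

/-- the dichotomy for the class `V` -/
def Dch {Y : Type} [TopologicalSpace Y] [MeasurableSpace Y] (act : Equiv.Perm ℕ → Y → Y)
    (V : Y → Prop) : Prop :=
  ∀ B : Set Y, MeasurableSet B → (∀ x ∈ B, V x) → (∀ x ∈ B, ∀ σ, act σ x ∈ B) →
  (∃ f : ℕ → Y, ∀ x ∈ B, ∃ n, ∃ σ : Equiv.Perm ℕ, x = act σ (f n)) ∨
  (∃ g : (ℕ → Bool) → Y, Continuous g ∧ (∀ A, g A ∈ B) ∧
    ∀ A A', (∃ σ : Equiv.Perm ℕ, g A' = act σ (g A)) → A = A')

theorem dch_transfer {Y Z : Type} [Nonempty Y] [TopologicalSpace Y] [PolishSpace Y]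
    [MeasurableSpace Y] [BorelSpace Y] [TopologicalSpace Z] [PolishSpace Z]
    [MeasurableSpace Z] [BorelSpace Z]
    (act1 : Equiv.Perm ℕ → Y → Y) (act2 : Equiv.Perm ℕ → Z → Z) (V : Y → Prop) (W : Z → Prop)
    (c : Y → Z) (hc : Measurable c) (hinj : ∀ x y, V x → V y → c x = c y → x = y)
    (hact : ∀ σ x, c (act1 σ x) = act2 σ (c x)) (hinv : ∀ σ z, act2 σ.symm (act2 σ z) = z)
    (hW : ∀ x, V x → W (c x)) (hD : Dch act2 W) : Dch act1 V := by
  classical
  intro B hB hBV hBi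
  have hinjB : InjOn c B := fun x hx y hy h => hinj x y (hBV x hx) (hBV y hy) h
  have hB1 : MeasurableSet (c '' B) := hB.image_of_measurable_injOn hc hinjB
  rcases hD (c '' B) hB1 (by rintro _ ⟨x, hx, rfl⟩; exact hW x (hBV x hx))
    (by rintro _ ⟨x, hx, rfl⟩ σ; exact ⟨act1 σ x, hBi x hx σ, hact σ x⟩) with
    ⟨f, hf⟩ | ⟨g, hg, hgB, hgi⟩
  · left
    by_cases hne : B.Nonempty
    · obtain ⟨x0, hx0⟩ := hne
      have hch : ∀ n, ∃ y : Y, f n ∈ c '' B → y ∈ B ∧ c y = f n := by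
        intro n
        by_cases h : f n ∈ c '' B
        · obtain ⟨y, hy, hy2⟩ := h
          exact ⟨y, fun _ => ⟨hy, hy2⟩⟩
        · exact ⟨x0, fun h' => absurd h' h⟩
      choose f' hf' using hch
      refine ⟨f', fun x hx => ?_⟩
      obtain ⟨n, σ, hn⟩ := hf (c x) ⟨x, hx, rfl⟩
      have hfn : f n ∈ c '' B := by
        refine ⟨act1 σ.symm x, hBi x hx _, ?_⟩
        rw [hact, hn, hinv]
      obtain ⟨h1, h2⟩ := hf' n hfn
      refine ⟨n, σ, hinj _ _ (hBV x hx) (hBV _ (hBi _ h1 σ)) ?_⟩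
      rw [hact, h2]
      exact hn
    · exact ⟨fun _ => Classical.arbitrary Y, fun x hx => absurd ⟨x, hx⟩ hne⟩
  · right
    choose X hXB hXc using hgB
    have hsb : StandardBorelSpace B := hB.standardBorel
    have hcB : Measurable fun x : B => c x.1 := hc.comp measurable_subtype_coe
    have hme : MeasurableEmbedding fun x : B => c x.1 :=
      hcB.measurableEmbedding fun x y h => Subtype.ext (hinjB x.2 y.2 h)
    have hX : Measurable fun A => (⟨X A, hXB A⟩ : B) := by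
      rw [← hme.measurable_comp_iff]
      have e : ((fun x : B => c x.1) ∘ fun A => (⟨X A, hXB A⟩ : B)) = g := by
        funext A
        exact hXc A
      rw [e]
      exact hg.measurable
    have hX2 : Measurable X := measurable_subtype_coe.comp hX
    obtain ⟨h, h1, h2⟩ := cont_of_borel X hX2
    refine ⟨X ∘ h, h2, fun A => hXB _, ?_⟩
    rintro A A' ⟨σ, hσ⟩
    apply h1
    apply hgi
    refine ⟨σ, ?_⟩
    have h3 : X (h A') = act1 σ (X (h A)) := hσ
    rw [← hXc, ← hXc, h3]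
    exact hact σ _

theorem act_symm {b : ℕ → ℕ} (σ : Equiv.Perm ℕ) (z : RS b) : act σ.symm (act σ z) = z := by
  funext i v
  show z i (⇑σ.symm ∘ (⇑σ.symm.symm ∘ v)) = z i v
  have e : (⇑σ.symm ∘ (⇑σ.symm.symm ∘ v)) = v := by
    funext k
    simp
  rw [e]

theorem riso_act {b : ℕ → ℕ} (x y : RS b) : RIso x y ↔ ∃ σ, y = act σ x := by
  constructor
  · rintro ⟨σ, h⟩
    refine ⟨σ, ?_⟩
    funext i v
    have h3 := h i (⇑σ.symm ∘ v)
    have e : (⇑σ ∘ (⇑σ.symm ∘ v)) = v := by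
      funext k
      exact σ.apply_symm_apply (v k)
    rw [e] at h3
    exact h3
  · rintro ⟨σ, rfl⟩
    refine ⟨σ, fun i v => ?_⟩
    show x i (⇑σ.symm ∘ (⇑σ ∘ v)) = x i v
    have e : (⇑σ.symm ∘ (⇑σ ∘ v)) = v := by
      funext k
      exact σ.symm_apply_apply (v k)
    rw [e]

theorem vc_of_dch {b : ℕ → ℕ} (W : RS b → Prop) (h : Dch act W) : VC W := by
  intro B hB hi hV
  rcases h B hB hV (fun x hx σ => (hi _ _ ((riso_act _ _).2 ⟨σ, rfl⟩)).1 hx) with
    ⟨f, hf⟩ | ⟨g, hg, hgB, hgi⟩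
  · left
    refine ⟨f, fun x hx => ?_⟩
    obtain ⟨n, σ, h1⟩ := hf x hx
    exact ⟨n, (riso_act _ _).2 ⟨σ, h1⟩⟩
  · right
    exact ⟨g, hg, hgB, fun A A' h1 => hgi A A' ((riso_act _ _).1 h1)⟩

theorem dch_of_vc {b : ℕ → ℕ} (W : RS b → Prop) (h : VC W) : Dch act W := by
  intro B hB hV hi
  have hs : ∀ x y : RS b, RIso x y → (x ∈ B ↔ y ∈ B) := by
    intro x y h1
    obtain ⟨σ, rfl⟩ := (riso_act _ _).1 h1
    refine ⟨fun h2 => hi x h2 σ, fun h2 => ?_⟩
    have h3 := hi _ h2 σ.symm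
    rwa [act_symm] at h3
  rcases h B hB hs hV with ⟨f, hf⟩ | ⟨g, hg, hgB, hgi⟩
  · left
    refine ⟨f, fun x hx => ?_⟩
    obtain ⟨n, h1⟩ := hf x hx
    obtain ⟨σ, h2⟩ := (riso_act _ _).1 h1
    exact ⟨n, σ, h2⟩
  · right
    exact ⟨g, hg, hgB, fun A A' h1 => hgi A A' ((riso_act _ _).2 h1)⟩

theorem relY_symm (σ : Equiv.Perm ℕ) (z : YY) : relY σ.symm (relY σ z) = z := by
  unfold relY
  simp

/-! ### Parameters -/

/-- arities: one binary relation and unary relations -/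
def b4 : ℕ → ℕ
  | 0 => 2
  | (_ + 1) => 1

/-- structures as relational structures -/
def en4 (x : YY) : RS b4
  | 0 => fun v => x.1 (c0 v) (c1 v)
  | (i + 1) => fun v => x.2 i (c0 v)

/-- the way back -/
def de4 (z : RS b4) : YY := (fun m n => z 0 (p2 m n), fun i m => z (i + 1) (p2 m m))

theorem p2_eta4 (v : Fin (b4 0) → ℕ) : (p2 (c0 v) (c1 v) : Fin (b4 0) → ℕ) = v :=
  Pool.Agent.H31R3.SO.p2_eta v

theorem p2_eta41 {i : ℕ} (v : Fin (b4 (i + 1)) → ℕ) :
    (p2 (c0 v) (c0 v) : Fin (b4 (i + 1)) → ℕ) = v := by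
  funext j
  have hj : j.1 < 1 := j.2
  have hj0 : j = ⟨0, Nat.one_pos⟩ := Fin.ext (by show j.1 = 0; omega)
  have h1 : c0 v = v ⟨0, Nat.one_pos⟩ := by
    unfold c0
    rw [dif_pos (show 0 < b4 (i + 1) from Nat.one_pos)]
  unfold p2
  rw [h1, hj0]
  simp

theorem de_en4 (x : YY) : de4 (en4 x) = x := by
  refine Prod.ext ?_ ?_
  · funext m n
    show x.1 (c0 (p2 m n : Fin (b4 0) → ℕ)) (c1 (p2 m n : Fin (b4 0) → ℕ)) = x.1 m n
    rw [c0_p2 (show 0 < b4 0 from Nat.two_pos), c1_p2 (show 1 < b4 0 from Nat.one_lt_two)]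
  · funext i m
    show x.2 i (c0 (p2 m m : Fin (b4 (i + 1)) → ℕ)) = x.2 i m
    rw [c0_p2 (show 0 < b4 (i + 1) from Nat.one_pos)]

theorem en_de4 (z : RS b4) : en4 (de4 z) = z := by
  funext i v
  match i, v with
  | 0, v =>
    show z 0 (p2 (c0 v) (c1 v)) = z 0 v
    rw [p2_eta4]
  | (i + 1), v =>
    show z (i + 1) (p2 (c0 v) (c0 v)) = z (i + 1) v
    rw [p2_eta41]

theorem de4_act (σ : Equiv.Perm ℕ) (z : RS b4) : de4 (act σ z) = relY σ (de4 z) := by
  refine Prod.ext ?_ ?_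
  · funext m n
    show z 0 (⇑σ.symm ∘ p2 m n) = z 0 (p2 (σ.symm m) (σ.symm n))
    rw [p2_comp]
  · funext i m
    show z (i + 1) (⇑σ.symm ∘ p2 m m) = z (i + 1) (p2 (σ.symm m) (σ.symm m))
    rw [p2_comp]

theorem de4_cont : Continuous de4 := by
  refine Continuous.prodMk ?_ ?_
  · exact continuous_pi fun m => continuous_pi fun n =>
      (continuous_apply _).comp (continuous_apply _)
  · exact continuous_pi fun i => continuous_pi fun m =>
      (continuous_apply _).comp (continuous_apply _)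

theorem en4_cont : Continuous en4 := by
  refine continuous_pi fun i => continuous_pi fun v => ?_
  match i, v with
  | 0, v => exact (continuous_apply _).comp ((continuous_apply _).comp continuous_fst)
  | (i + 1), v => exact (continuous_apply _).comp ((continuous_apply _).comp continuous_snd)

theorem en4_act (σ : Equiv.Perm ℕ) (x : YY) : en4 (relY σ x) = act σ (en4 x) := by
  rw [← en_de4 (act σ (en4 x)), de4_act, de_en4]

theorem iso_of_act {R R' : RS b4} {σ : Equiv.Perm ℕ} (h : R' = act σ R) :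
    IsoOn (lift R) (lift R') univ univ ∅ := by
  have hσ : ∀ i (v : Fin (b4 i) → ℕ), R' i (⇑σ ∘ v) = R i v := by
    intro i v
    rw [h]
    show R i (⇑σ.symm ∘ (⇑σ ∘ v)) = R i v
    have e : (⇑σ.symm ∘ (⇑σ ∘ v)) = v := by
      funext k
      exact σ.symm_apply_apply (v k)
    rw [e]
  refine ⟨{w | w.2 = σ w.1}, empty_subset _, fun _ _ => ⟨trivial, trivial⟩, ⟨?_, ?_, ?_⟩, ?_, ?_⟩
  · rintro ⟨u, u'⟩ hu ⟨v, v'⟩ hv
    simp only [Set.mem_ofPred_eq] at hu hv
    simp only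
    rw [hu, hv]
    exact σ.injective.eq_iff.symm
  · intro u _ v _
    rfl
  · intro i t ht
    have h1 : (fun k => (t k).2) = ⇑σ ∘ fun k => (t k).1 := funext fun k => ht k
    show R i (fun k => (t k).1) = R' i (fun k => (t k).2)
    rw [h1, hσ]
  · intro x _
    exact ⟨σ x, rfl⟩
  · intro y _
    exact ⟨σ.symm y, by simp⟩

theorem act_of_iso {R R' : RS b4} {F : Set ℕ}
    (h : IsoOn (lift R) (lift R') univ univ (idOn F)) :
    ∃ σ : Equiv.Perm ℕ, R' = act σ R ∧ ∀ p ∈ F, σ p = p := by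
  obtain ⟨q, hq, -, h3, h4, h5⟩ := h
  choose f hf using fun x => h4 x trivial
  have hinj : Function.Injective f := by
    intro x y hxy
    exact (h3.1 _ (hf x) _ (hf y)).2 hxy
  have hsurj : Function.Surjective f := by
    intro y
    obtain ⟨x, hx⟩ := h5 y trivial
    exact ⟨x, (h3.1 _ (hf x) _ hx).1 rfl⟩
  refine ⟨Equiv.ofBijective f ⟨hinj, hsurj⟩, ?_, ?_⟩
  · have h6 : RIso R R' := by
      refine ⟨Equiv.ofBijective f ⟨hinj, hsurj⟩, fun i v => ?_⟩
      have := h3.2.2 i (fun k => (v k, f (v k))) (fun k => hf (v k))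
      exact this.symm
    funext i v
    set τ : Equiv.Perm ℕ := Equiv.ofBijective f ⟨hinj, hsurj⟩ with hτ
    have h7 := h3.2.2 i (fun k => (τ.symm (v k), f (τ.symm (v k)))) (fun k => hf _)
    have e1 : ∀ k, f (τ.symm (v k)) = v k := fun k => τ.apply_symm_apply (v k)
    have h8 : R i (fun k => τ.symm (v k)) = R' i (fun k => f (τ.symm (v k))) := h7
    simp only [e1] at h8
    exact h8.symm
  · intro p hp
    have hpp : ((p, p) : ℕ × ℕ) ∈ q := hq ⟨rfl, hp⟩
    exact (h3.1 _ (hf p) _ hpp).1 rfl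

/-- naming finitely many elements -/
theorem param (B : Set YY) (hB : MeasurableSet B) (g : (ℕ → Bool) → YY) (hg : Continuous g)
    (hgB : ∀ A, g A ∈ B) (F : Set ℕ) (hF : F.Finite)
    (h : ∀ A A' (σ : Equiv.Perm ℕ), (∀ p ∈ F, σ p = p) → g A' = relY σ (g A) → A = A') :
    ∃ g' : (ℕ → Bool) → YY, Continuous g' ∧ (∀ A, g' A ∈ B) ∧
      ∀ A A', (∃ σ : Equiv.Perm ℕ, g' A' = relY σ (g' A)) → A = A' := by
  classical
  by_contra hno
  have hK : MeasurableSet {M : St b4 | M.1 = (fun _ _ => false) ∧ de4 M.2 ∈ B} := by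
    have e1 : {M : St b4 | M.1 = (fun _ _ => false) ∧ de4 M.2 ∈ B} =
        (Prod.fst ⁻¹' {fun _ _ => false}) ∩ ((fun M : St b4 => de4 M.2) ⁻¹' B) := rfl
    rw [e1]
    exact (measurable_fst (measurableSet_singleton _)).inter
      ((de4_cont.measurable.comp measurable_snd) hB)
  refine few_base hK ?_ (F := F) hF (fun A => lift (en4 (g A))) ?_ ?_ ?_
  · rintro ⟨k, hkc, hkK, hkd⟩
    refine hno ⟨fun A => de4 (k A).2, de4_cont.comp (continuous_snd.comp hkc),
      fun A => (hkK A).2, ?_⟩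
    rintro A A' ⟨σ, hσ⟩
    refine hkd A A' ?_
    have h7 : ∀ A, k A = lift (k A).2 := by
      intro A
      exact Prod.ext (hkK A).1 rfl
    rw [h7 A, h7 A']
    refine iso_of_act (σ := σ) ?_
    rw [← en_de4 (k A').2, ← en_de4 (k A).2, ← en4_act]
    exact congrArg en4 hσ
  · have hlc : Continuous (lift : RS b4 → St b4) := continuous_const.prodMk continuous_id
    exact hlc.comp (en4_cont.comp hg)
  · intro A
    refine ⟨rfl, ?_⟩
    show de4 (en4 (g A)) ∈ B
    rw [de_en4]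
    exact hgB A
  · intro A A' hAA
    obtain ⟨σ, hσ, hσF⟩ := act_of_iso hAA
    refine h A A' σ hσF ?_
    rw [← en4_act] at hσ
    rw [← de_en4 (g A'), hσ, de_en4]

end Pool.Agent.H31R3.UI
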