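import Pool.Agent.H31R3.UI.Dch

set_option autoImplicit false

/-! Orientation of connected unit interval graphs. -/

namespace Pool.Agent.H31R3.UI

open Set MeasureTheory
open Pool.Agent.H31R3.SO (Semi Le le_tot le_refl' le_tr s_mono YY relY)

/-- `g` is the incomparability graph of the semiorder `s` -/
structure Ind (g s : ℕ → ℕ → Bool) : Prop where
  semi : Semi s
  inc : ∀ x y, g x y = true ↔ x ≠ y ∧ s x y = false ∧ s y x = false

/-- non-edges -/
def Ne (g : ℕ → ℕ → Bool) (x y : ℕ) : Prop := x ≠ y ∧ g x y = false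

/-- forcing of orientations -/
def Step (g : ℕ → ℕ → Bool) (p q : ℕ × ℕ) : Prop := Ne g p.1 p.2 ∧ Ne g q.1 q.2 ∧
  ((p.1 = q.1 ∧ g p.2 q.2 = true) ∨ (p.2 = q.2 ∧ g p.1 q.1 = true))

/-- the orientation generated by a pair -/
def Fo (g : ℕ → ℕ → Bool) (a b x y : ℕ) : Prop := Relation.ReflTransGen (Step g) (a, b) (x, y)

/-- connectedness -/
def Cn (g : ℕ → ℕ → Bool) (x y : ℕ) : Prop := Relation.ReflTransGen (fun u v => g u v = true) x y

variable {g s : ℕ → ℕ → Bool}

theorem g_symm (h : Ind g s) {x y : ℕ} (h1 : g x y = true) : g y x = true := by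
  rw [h.inc] at h1 ⊢
  exact ⟨h1.1.symm, h1.2.2, h1.2.1⟩

theorem ne_or (h : Ind g s) {x y : ℕ} : Ne g x y ↔ s x y = true ∨ s y x = true := by
  unfold Ne
  constructor
  · rintro ⟨h1, h2⟩
    by_contra h3
    push Not at h3
    have : g x y = true := (h.inc x y).2 ⟨h1, by simpa using h3.1, by simpa using h3.2⟩
    rw [this] at h2
    exact Bool.noConfusion h2
  · intro h1
    refine ⟨?_, ?_⟩
    · rintro rfl
      rw [h.semi.irr] at h1
      simp at h1
    · by_contra h2
      rw [Bool.not_eq_false] at h2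
      have h3 := (h.inc x y).1 h2
      rw [h3.2.1, h3.2.2] at h1
      simp at h1

theorem s_tr (h : Semi s) {x y z : ℕ} (h1 : s x y = true) (h2 : s y z = true) :
    s x z = true := by
  rcases h.io x y y z h1 h2 with h3 | h3
  · exact h3
  · rw [h.irr] at h3
    exact Bool.noConfusion h3

theorem s_nadj (h : Ind g s) {x y : ℕ} (h1 : s x y = true) : g x y ≠ true := by
  intro h2
  have h3 := (h.inc x y).1 h2
  rw [h1] at h3
  exact Bool.noConfusion h3.2.1

theorem s_nadj' (h : Ind g s) {x y : ℕ} (h1 : s x y = true) : g y x ≠ true := by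
  intro h2
  exact s_nadj h h1 (g_symm h h2)

/-- orientations generated by a correctly oriented pair are correct -/
theorem fo_sound (h : Ind g s) {a b x y : ℕ} (hab : s a b = true) (hF : Fo g a b x y) :
    s x y = true := by
  unfold Fo at hF
  have key : ∀ q : ℕ × ℕ, Relation.ReflTransGen (Step g) (a, b) q → s q.1 q.2 = true := by
    intro q hq
    induction hq with
    | refl => exact hab
    | @tail p q h1 h2 ih =>
      obtain ⟨hp, hq, h3⟩ := h2
      rcases (ne_or h).1 hq with h4 | h4
      · exact h4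
      exfalso
      rcases h3 with ⟨h5, h6⟩ | ⟨h5, h6⟩
      · rw [h5] at ih
        exact s_nadj' h (s_tr h.semi h4 ih) h6
      · rw [h5] at ih
        exact s_nadj h (s_tr h.semi ih h4) h6
  exact key _ hF

theorem step_symm (h : Ind g s) {p q : ℕ × ℕ} (h1 : Step g p q) : Step g q p := by
  obtain ⟨h2, h3, h4⟩ := h1
  refine ⟨h3, h2, ?_⟩
  rcases h4 with ⟨h5, h6⟩ | ⟨h5, h6⟩
  · exact Or.inl ⟨h5.symm, g_symm h h6⟩
  · exact Or.inr ⟨h5.symm, g_symm h h6⟩

theorem fo_symm (h : Ind g s) {a b x y : ℕ} (h1 : Fo g a b x y) : Fo g x y a b := by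
  have key : ∀ p q : ℕ × ℕ, Relation.ReflTransGen (Step g) p q →
      Relation.ReflTransGen (Step g) q p := by
    intro p q hpq
    induction hpq with
    | refl => exact Relation.ReflTransGen.refl
    | tail _ h2 ih => exact Relation.ReflTransGen.head (step_symm h h2) ih
  exact key _ _ h1

theorem fo_trans {a b x y u v : ℕ} (h1 : Fo g a b x y) (h2 : Fo g x y u v) : Fo g a b u v :=
  Relation.ReflTransGen.trans h1 h2

/-- moving the upper point up -/
theorem up (h : Ind g s) {x y z : ℕ} (h1 : s x y = true) (h2 : Cn g y z) (h3 : Le s y z) :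
    Fo g x y x z := by
  have hadj : ∀ u v, Le s u y → Le s y v → g u v = true → y = v ∨ g y v = true := by
    intro u v hu hv huv
    by_cases hyv : y = v
    · exact Or.inl hyv
    right
    rw [h.inc] at huv ⊢
    refine ⟨hyv, ?_, ?_⟩
    · by_contra h4
      rw [Bool.not_eq_false] at h4
      have h5 := hu.2 _ h4
      rw [huv.2.1] at h5
      exact Bool.noConfusion h5
    · by_contra h4
      rw [Bool.not_eq_false] at h4
      have h5 := hv.2 _ h4
      rw [h.semi.irr] at h5
      exact Bool.noConfusion h5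
  have one : ∀ v, Le s y v → (y = v ∨ g y v = true) → Fo g x y x v := by
    intro v hv h4
    rcases h4 with rfl | h4
    · exact Relation.ReflTransGen.refl
    · refine Relation.ReflTransGen.single ⟨(ne_or h).2 (Or.inl h1), (ne_or h).2 (Or.inl ?_),
        Or.inl ⟨rfl, h4⟩⟩
      exact hv.1 _ h1
  have key : ∀ v, Cn g y v → Le s v y ∨ Fo g x y x v := by
    intro v hv
    unfold Cn at hv
    induction hv with
    | refl => exact Or.inl (le_refl' y)
    | @tail u v h4 h5 ih =>
      rcases le_tot h.semi v y with h6 | h6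
      · exact Or.inl h6
      right
      rcases ih with ih | ih
      · exact one v h6 (hadj u v ih h6 h5)
      · refine Relation.ReflTransGen.tail ih ⟨(ne_or h).2 (Or.inl (fo_sound h h1 ih)),
          (ne_or h).2 (Or.inl (h6.1 _ h1)), Or.inl ⟨rfl, h5⟩⟩
  rcases key z h2 with h4 | h4
  · -- twins
    refine one z h3 ?_
    by_cases hyz : y = z
    · exact Or.inl hyz
    right
    rw [h.inc]
    refine ⟨hyz, ?_, ?_⟩
    · by_contra h5
      rw [Bool.not_eq_false] at h5
      have h6 := h4.2 _ h5
      rw [h.semi.irr] at h6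
      exact Bool.noConfusion h6
    · by_contra h5
      rw [Bool.not_eq_false] at h5
      have h6 := h3.2 _ h5
      rw [h.semi.irr] at h6
      exact Bool.noConfusion h6
  · exact h4

/-- the reversed semiorder -/
def rv (s : ℕ → ℕ → Bool) : ℕ → ℕ → Bool := fun x y => s y x

theorem rv_semi (h : Semi s) : Semi (rv s) := by
  refine ⟨fun x => h.irr x, fun x y z w h1 h2 => ?_, fun x y z w h1 h2 => ?_⟩
  · rcases h.io y x w z h1 h2 with h3 | h3
    · exact Or.inr h3
    · exact Or.inl h3
  · rcases h.st z y x w h2 h1 with h3 | h3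
    · exact Or.inr h3
    · exact Or.inl h3

theorem rv_ind (h : Ind g s) : Ind g (rv s) := by
  refine ⟨rv_semi h.semi, fun x y => ?_⟩
  rw [h.inc]
  show _ ↔ x ≠ y ∧ s y x = false ∧ s x y = false
  tauto

theorem rv_le {x y : ℕ} : Le (rv s) x y ↔ Le s y x := by
  unfold Le rv
  tauto

theorem step_swap (h : Ind g s) {p q : ℕ × ℕ} (h1 : Step g p q) : Step g p.swap q.swap := by
  obtain ⟨h2, h3, h4⟩ := h1
  have hs : ∀ x y, Ne g x y → Ne g y x := by
    intro x y hxy
    rw [ne_or h] at hxy ⊢
    exact hxy.symm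
  exact ⟨hs _ _ h2, hs _ _ h3, h4.symm⟩

theorem fo_swap (h : Ind g s) {a b x y : ℕ} (h1 : Fo g a b x y) : Fo g b a y x := by
  have key : ∀ p q : ℕ × ℕ, Relation.ReflTransGen (Step g) p q →
      Relation.ReflTransGen (Step g) p.swap q.swap := by
    intro p q hpq
    induction hpq with
    | refl => exact Relation.ReflTransGen.refl
    | tail _ h2 ih => exact Relation.ReflTransGen.tail ih (step_swap h h2)
  exact key _ _ h1

/-- moving the lower point down -/
theorem down (h : Ind g s) {x y z : ℕ} (h1 : s x y = true) (h2 : Cn g x z) (h3 : Le s z x) :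
    Fo g x y z y := by
  have h4 : Fo g y x y z := up (rv_ind h) (s := rv s) h1 h2 (rv_le.2 h3)
  exact fo_swap h h4

theorem cn_symm (h : Ind g s) {x y : ℕ} (h1 : Cn g x y) : Cn g y x := by
  unfold Cn at h1 ⊢
  induction h1 with
  | refl => exact Relation.ReflTransGen.refl
  | tail _ h2 ih => exact Relation.ReflTransGen.head (g_symm h h2) ih

/-- in a connected graph every correctly oriented pair generates the semiorder -/
theorem fo_complete (h : Ind g s) (hc : ∀ x y, Cn g x y) {a b x y : ℕ} (hab : s a b = true)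
    (hxy : s x y = true) : Fo g a b x y := by
  have key : ∀ u v w z, s u v = true → Le s w u → Le s v z → Fo g u v w z := by
    intro u v w z h1 h2 h3
    have h4 := up h h1 (hc v z) h3
    have h5 : s u z = true := fo_sound h h1 h4
    exact fo_trans h4 (down h h5 (hc u w) h2)
  obtain ⟨w, hw1, hw2⟩ : ∃ w, Le s w a ∧ Le s w x := by
    rcases le_tot h.semi a x with h1 | h1
    · exact ⟨a, le_refl' a, h1⟩
    · exact ⟨x, h1, le_refl' x⟩
  obtain ⟨z, hz1, hz2⟩ : ∃ z, Le s b z ∧ Le s y z := by
    rcases le_tot h.semi b y with h1 | h1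
    · exact ⟨y, h1, le_refl' y⟩
    · exact ⟨b, le_refl' b, h1⟩
  exact fo_trans (key a b w z hab hw1 hz1) (fo_symm h (key x y w z hxy hw2 hz2))

open Classical in
/-- the semiorder generated by a pair -/
noncomputable def Or' (g : ℕ → ℕ → Bool) (a b : ℕ) : ℕ → ℕ → Bool :=
  fun x y => decide (Fo g a b x y)

open Classical in
theorem or_eq (h : Ind g s) (hc : ∀ x y, Cn g x y) {a b : ℕ} (hab : s a b = true) :
    Or' g a b = s := by
  funext x y
  unfold Or'
  rw [Bool.eq_iff_iff, decide_eq_true_iff]
  exact ⟨fo_sound h hab, fo_complete h hc hab⟩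

theorem or_ind (h : ∃ s, Ind g s) (hc : ∀ x y, Cn g x y) {a b : ℕ} (hab : Ne g a b) :
    Ind g (Or' g a b) := by
  obtain ⟨s, h⟩ := h
  rcases (ne_or h).1 hab with h1 | h1
  · rw [or_eq h hc h1]
    exact h
  · rw [or_eq (rv_ind h) hc (s := rv s) h1]
    exact rv_ind h

/-! ### Umbrella orderings -/

/-- a linear order with the umbrella property gives a semiorder -/
theorem umbrella (lt : ℕ → ℕ → Prop) (hir : ∀ x, ¬ lt x x)
    (htr : ∀ x y z, lt x y → lt y z → lt x z) (htt : ∀ x y, x ≠ y → lt x y ∨ lt y x)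
    (g : ℕ → ℕ → Bool) (hg : ∀ x, g x x = false) (hs : ∀ x y, g x y = true → g y x = true)
    (hu : ∀ x y z, lt x y → lt y z → g x z = true → g x y = true ∧ g y z = true) :
    ∃ s, Ind g s := by
  classical
  have hg' : ∀ x y, g x y = false → g y x = false := by
    intro x y h
    by_contra h1
    rw [Bool.not_eq_false] at h1
    rw [hs _ _ h1] at h
    exact Bool.noConfusion h
  have hnt : ∀ x y, ¬ g x y = true → g x y = false := fun x y h => by simpa using h
  refine ⟨fun x y => decide (lt x y ∧ g x y = false), ⟨?_, ?_, ?_⟩, ?_⟩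
  · intro x
    simp [hir]
  · intro x y z w h1 h2
    simp only [decide_eq_true_iff] at h1 h2 ⊢
    have key : ∀ x y z w, lt x y → g x y = false → lt z w → g z w = false → (x = z ∨ lt x z) →
        lt x w ∧ g x w = false := by
      intro x y z w a1 a2 a3 a4 a5
      rcases a5 with rfl | a5
      · exact ⟨a3, a4⟩
      · refine ⟨htr _ _ _ a5 a3, hnt _ _ fun h => ?_⟩
        rw [(hu x z w a5 a3 h).2] at a4
        exact Bool.noConfusion a4
    by_cases hxz : x = z
    · exact Or.inl (key x y z w h1.1 h1.2 h2.1 h2.2 (Or.inl hxz))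
    rcases htt x z hxz with h3 | h3
    · exact Or.inl (key x y z w h1.1 h1.2 h2.1 h2.2 (Or.inr h3))
    · exact Or.inr (key z w x y h2.1 h2.2 h1.1 h1.2 (Or.inr h3))
  · intro x y z w h1 h2
    simp only [decide_eq_true_iff] at h1 h2 ⊢
    by_cases hwy : w = y
    · subst hwy
      exact Or.inl h1
    rcases htt w y hwy with h3 | h3
    · right
      refine ⟨htr _ _ _ h3 h2.1, hnt _ _ fun h => ?_⟩
      have h4 := (hu w y z h3 h2.1 h).2
      rw [h4] at h2
      exact Bool.noConfusion h2.2
    · left
      refine ⟨htr _ _ _ h1.1 h3, hnt _ _ fun h => ?_⟩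
      have h4 := (hu x y w h1.1 h3 h).1
      rw [h4] at h1
      exact Bool.noConfusion h1.2
  · intro x y
    simp only [decide_eq_false_iff_not, not_and, Bool.not_eq_false]
    constructor
    · intro h
      refine ⟨?_, fun _ => h, fun _ => hs _ _ h⟩
      rintro rfl
      rw [hg] at h
      exact Bool.noConfusion h
    · rintro ⟨h1, h2, h3⟩
      rcases htt x y h1 with h4 | h4
      · exact h2 h4
      · exact hs _ _ (h3 h4)

end Pool.Agent.H31R3.UI
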